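import Pool.Agent.Q100.HK.Fin

/-!
# The Hilbert-Smith conjecture for Hoelder and fractional Sobolev homeomorphisms

Let `n ≥ 2` and let `X` be a metric space in which the points with a neighbourhood bi-Lipschitz
equivalent to an open subset of `ℝⁿ` form a dense connected set (for example a connected Lipschitz
manifold, or an Alexandrov space of dimension `n`). Every locally compact group which acts
faithfully and continuously on `X`, such that every element near the identity is Hoelder with an
exponent above `(n - 1) / (n + 1)` at each regular point, is a Lie group. Exponent and constant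
depend on the point and on the element in an arbitrary way. More generally each regular point may be
a controlled point (a condition which also contains all points of finite linear dilatation), or may
lie in an open set on which the map is of the fractional Sobolev class `W^{s,q}` with `s q > n - 1`
and `s > (n - 1) / (n + 1)`, or in one of countably many closed sets along which the map has small
energy (for example sets of box dimension less than one).

Proof (files in `Pool/Agent/Q100/HK/` and the files imported there). Baire's theorem gives uniform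
bounds near a bad point for a coset of an open subgroup. Let `F` be the average over the closure `K`
of the powers of an element `g` of `p`-power type, and let `f` be an average of a Lipschitz function
over a small subgroup. Almost every hyperplane has a null image in `ℝⁿ⁺¹` under `(F, f)`, so that
in almost every fibre of `F` almost every level of `f` is totally disconnected. If `g` has no
fixed point on the fibre, then the fibre is the union of two closed invariant sets, each of which has
an equivariant map to `ℤ/p`: the neighbourhood of finitely many levels, and the rest. A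
computation with local degrees (a cocycle on `ℤ/p × ℤ/p` and the fact that `g^(p^k)` tends to one)
shows that the degree of `F` over such a fibre is divisible by `p`, but it is one.
-/

namespace Pool.Agent.Results.MP_afaf30_gt.HolderAndFractionalSobolev

open MeasureTheory Set Metric Filter Topology
open scoped ENNReal

/-- A bi-Lipschitz chart with values in Euclidean `n`-space. -/
def BiLip {X : Type} [MetricSpace X] (n : ℕ) (U : Set X) (ψ : X → EuclideanSpace ℝ (Fin n))
    (L : ℝ) : Prop :=
  IsOpen U ∧ IsOpen (ψ '' U) ∧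
    ∀ a ∈ U, ∀ b ∈ U, dist (ψ a) (ψ b) ≤ L * dist a b ∧ dist a b ≤ L * dist (ψ a) (ψ b)

/-- The points with a neighbourhood which is bi-Lipschitz equivalent to an open subset of Euclidean
`n`-space. -/
def Reg (n : ℕ) (X : Type) [MetricSpace X] : Set X :=
  {x | ∃ (U : Set X) (ψ : X → EuclideanSpace ℝ (Fin n)) (L : ℝ), x ∈ U ∧ BiLip n U ψ L}

/-- The map `f` is controlled at `x`: for some `N` and all `y`, `z` with
`N d(y, x) ≤ d(z, x) < 1 / N` one has
`d(z, x) d(fy, fx)^(n+1) ≤ N d(z, x)^(1/N) (d(z, x)^n + d(fz, fx)^n)`. -/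
def ControlledAt (n : ℕ) {X : Type} [MetricSpace X] (f : X → X) (x : X) : Prop :=
  ∃ N : ℕ, 0 < N ∧ ∀ y z : X, N * dist y x ≤ dist z x → N * dist z x < 1 →
    dist z x * dist (f y) (f x) ^ (n + 1) ≤
      N * dist z x ^ (1 / (N : ℝ)) * (dist z x ^ n + dist (f z) (f x) ^ n)

/-- The map `f` has small energy along `S`: on every compact set `C` of regular points the sum of
`diam (f (B(a, c r) ∩ C))^(n+1)` over `r`-separated points `a` of `S ∩ C` is at most
`N r^(1/N - 1)`, for some `N` depending on `C` and `c`. -/
def SmallEnergy (n : ℕ) {X : Type} [MetricSpace X] (f : X → X) (S : Set X) : Prop :=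
  ∀ C ⊆ Reg n X, IsCompact C → ∀ c : ℕ, ∃ N : ℕ, 0 < N ∧ ∀ r : ℝ, 0 < r → N * r < 1 →
    ∀ A : Finset X, (∀ a ∈ A, a ∈ S ∧ a ∈ C) → (∀ a ∈ A, ∀ b ∈ A, a ≠ b → r ≤ dist a b) →
      ∑ a ∈ A, Metric.diam (f '' (closedBall a (c * r) ∩ C)) ^ (n + 1) ≤
        N * r ^ (1 / (N : ℝ) - 1)

/-- The fractional Sobolev class on `U`, in the form of Hajlasz, of an order `s ≤ 1` and an
exponent `q` with `n - 1 < s q` and `n - 1 < s (n + 1)`: on every compact set `C` of regular points
of `U` there is `g` with `d(fa, fb) ≤ d(a, b)^s (g(a) + g(b))`, and `g^q` has finite integral over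
`C` for the `n`-dimensional Hausdorff measure. -/
def SobolevOn (n : ℕ) {X : Type} [MetricSpace X] [MeasurableSpace X] [BorelSpace X]
    (f : X → X) (U : Set X) : Prop :=
  ∃ s q : ℝ, 0 < s ∧ s ≤ 1 ∧ (n : ℝ) - 1 < s * (n + 1) ∧ (n : ℝ) - 1 < s * q ∧
    ∀ C ⊆ U ∩ Reg n X, IsCompact C → ∃ g : X → ℝ≥0∞, Measurable g ∧
      (∀ a ∈ C, ∀ b ∈ C, edist (f a) (f b) ≤ edist a b ^ s * (g a + g b)) ∧
      ∫⁻ a in C, g a ^ q ∂(Measure.hausdorffMeasure (n : ℝ)) < ∞

/-- Every regular point is controlled, or lies in one of countably many closed sets along which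
the map has small energy, or in one of countably many open sets on which it is of a fractional
Sobolev class. -/
def Admissible (n : ℕ) {X : Type} [MetricSpace X] [MeasurableSpace X] [BorelSpace X]
    (f : X → X) : Prop :=
  ∃ S U : ℕ → Set X, (∀ i, IsClosed (S i) ∧ SmallEnergy n f (S i)) ∧
    (∀ i, IsOpen (U i) ∧ SobolevOn n f (U i)) ∧
    ∀ x ∈ Reg n X, ControlledAt n f x ∨ ∃ i, x ∈ S i ∨ x ∈ U i

/-- `f` is Hoelder at the point `x` with an exponent above `(n - 1) / (n + 1)`. -/
def HolderAt (n : ℕ) {X : Type} [MetricSpace X] (f : X → X) (x : X) : Prop :=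
  ∃ α M δ : ℝ, ((n : ℝ) - 1) / (n + 1) < α ∧ 0 < δ ∧
    ∀ y, dist y x < δ → dist (f y) (f x) ≤ M * dist y x ^ α

/-- `f` has finite linear dilatation at the point `x`. -/
def DilatationAt {X : Type} [MetricSpace X] (f : X → X) (x : X) : Prop :=
  ∃ M δ : ℝ, 0 < δ ∧ ∀ y z, dist y x ≤ dist z x → dist z x < δ →
    dist (f y) (f x) ≤ M * dist (f z) (f x)

/-- `S` is thin: for every compact set `C` of regular points the number of `r`-separated points of
`S ∩ C` is at most `N r^(1/N - 1)`, for some `N` depending on `C`. -/
def Thin (n : ℕ) {X : Type} [MetricSpace X] (S : Set X) : Prop :=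
  ∀ C ⊆ Reg n X, IsCompact C → ∃ N : ℕ, 0 < N ∧ ∀ r : ℝ, 0 < r → N * r < 1 →
    ∀ A : Finset X, (∀ a ∈ A, a ∈ S ∧ a ∈ C) → (∀ a ∈ A, ∀ b ∈ A, a ≠ b → r ≤ dist a b) →
      (A.card : ℝ) ≤ N * r ^ (1 / (N : ℝ) - 1)

/-- The Hilbert-Smith conjecture for Hoelder and fractional Sobolev homeomorphisms. -/
theorem result :
    ∀ (n : ℕ), 2 ≤ n → ∀ (X : Type) [MetricSpace X] [MeasurableSpace X] [BorelSpace X],
      (Dense (Reg n X) → IsPreconnected (Reg n X) →
        ∀ (G : Type) [Group G] [TopologicalSpace G] [IsTopologicalGroup G]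
          [LocallyCompactSpace G] [MulAction G X] [ContinuousSMul G X] [FaithfulSMul G X],
          (∀ᶠ g in 𝓝 (1 : G), Admissible n (fun x : X => g • x)) →
          ∃ (m : ℕ) (_ : ChartedSpace (EuclideanSpace ℝ (Fin m)) G),
            LieGroup (modelWithCornersSelf ℝ (EuclideanSpace ℝ (Fin m)))
              ((⊤ : ℕ∞) : WithTop ℕ∞) G) ∧
      (∀ (f : X → X) (x : X), HolderAt n f x → ControlledAt n f x) ∧
      (∀ (f : X → X) (x : X), ContinuousAt f x → DilatationAt f x → ControlledAt n f x) ∧
      (∀ (f : X → X) (S : Set X), Continuous f → Thin n S → SmallEnergy n f S) := by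
  intro n hn X _ _ _
  refine ⟨fun hd hc G _ _ _ _ _ _ _ hs => ?_, fun f x h => ?_, fun f x hf h => ?_,
    fun f S hf hS => ?_⟩
  · exact Pool.Agent.Q100.HK.lie_fin hn hd hc hs
  · obtain ⟨α, M, δ, hα, hδ, h⟩ := h
    have hn2 : (2 : ℝ) ≤ n := by exact_mod_cast hn
    have hα0 : 0 < α := lt_trans (div_pos (by linarith) (by linarith)) hα
    exact Pool.Agent.Q100.HK.con_of_holder hα hδ h hα0
  · obtain ⟨M, δ, hδ, h⟩ := h
    exact Pool.Agent.Q100.HK.con_of_dil hf hδ h
  · exact Pool.Agent.Q100.HK.ene_of_thin hf hS

end Pool.Agent.Results.MP_afaf30_gt.HolderAndFractionalSobolev
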